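import Pool.Agent.P.MP_5d883e_nt.Descent

namespace Pool.Agent.Results.MP_5d883e_nt.RankZeroOneModEight

open Pool.Agent.P.MP_5d883e_nt

/-- The curve `y^2 = x^3 - (p + 2) x^2 + 2 p x = x (x - 2) (x - p)` over the rationals. -/
def twinCurve (p : ℕ) : WeierstrassCurve ℚ := ⟨0, -((p : ℚ) + 2), 0, 2 * (p : ℚ), 0⟩

theorem result (p : ℕ) (hp : p.Prime) (hq : (p - 2).Prime) (h8 : p % 8 = 1)
    (hf : ¬ ∃ x y : ℤ, (p : ℤ) = x ^ 2 + 32 * y ^ 2) :
    Module.rank ℤ (twinCurve p).toAffine.Point = 0 := by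
  rw [rank_eq_zero_iff]
  intro P
  refine ⟨2, two_ne_zero, ?_⟩
  rw [two_smul]
  rcases P with _ | ⟨x, y, h⟩
  · rfl
  · have h1 := (WeierstrassCurve.Affine.equation_iff _ _).1 h.left
    have h2 : y = 0 := by
      refine y_eq_zero hp h8 hq hf (x := x) ?_
      simp only [twinCurve] at h1
      linear_combination h1
    apply WeierstrassCurve.Affine.Point.add_self_of_Y_eq
    simp [WeierstrassCurve.Affine.negY, twinCurve, h2]

end Pool.Agent.Results.MP_5d883e_nt.RankZeroOneModEight
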